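import Mathlib
import Pool.Agent.Helper126.Sus.Forc
import Pool.Agent.W876.Two.Gen
import Pool.Agent.W876.Two.Unif

/-!
# Uniformizing all colourings with two colours does not suffice for countably many colours

For every ladder system `C` of the ground model there is a forcing notion with the countable chain
condition such that in the extension, for every tree `T` of the ground model of height `ω₁` with
countable levels, every 2-colouring of `C` has a `T`-uniformization and some `ω`-colouring of `C`
has none. One of these trees is an Aronszajn tree of the extension.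
-/

namespace Pool.Agent.Results.MP_62a69e_lc.TwoNotOmega

open Cardinal Pool.Agent.Helper126.Sus.Forc

open Pool.Agent.W876.Two.Gen (CardinalsPreserved)

theorem result :
    (∃ C : K1 → Set K1, IsLadder C) ∧
    ∀ C : K1 → Set K1, IsLadder C →
      ∃ (P : Type) (_ : Preorder P), Nonempty P ∧ CCC P ∧ (∀ p : P, p ∈ CardinalsPreserved P) ∧
        (∃ (T : Type) (lt : T → T → Prop) (ht : T → K1), ∀ p : P,
          p ∈ IsAronszajn (fun x y => fground (lt x y)) ht ∧
            p ∈ UnifTwo C (fun x y => fground (lt x y)) ht ∧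
              p ∈ fnot (Unif C (fun x y => fground (lt x y)) ht)) ∧
        ∀ (T : Type) (lt : T → T → Prop) (ht : T → K1), (∀ ξ, {x | ht x = ξ}.Countable) →
          ∀ p : P, p ∈ IsTree (fun x y => fground (lt x y)) ht →
            p ∈ UnifTwo C (fun x y => fground (lt x y)) ht ∧
              p ∈ fnot (Unif C (fun x y => fground (lt x y)) ht) := by
  classical
  refine ⟨?_, fun C hC => ?_⟩
  · refine ⟨fun α => if h : Pool.Agent.Helper761.Om.Lim α then
      Set.range fun n => (Pool.Agent.W876.Prox.Omega.exists_lad α h).choose n 0 else ∅, ?_⟩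
    have hl : ∀ α : K1, Order.IsSuccLimit α → Pool.Agent.Helper761.Om.Lim α := fun α =>
      Pool.Agent.W876.Two.Main.lim_of
    refine ⟨fun α hα ξ hξ => ?_, fun α hα η hη => ?_, fun α hα η hη => ?_⟩
    · rw [dif_pos (hl α hα)] at hξ
      obtain ⟨n, rfl⟩ := hξ
      exact (Pool.Agent.W876.Prox.Omega.exists_lad α (hl α hα)).choose_spec.1 n 0
    · rw [dif_pos (hl α hα)]
      obtain ⟨η', h1, h2⟩ := (hl α hα).2 η hη
      obtain ⟨n0, h3⟩ :=
        (Pool.Agent.W876.Prox.Omega.exists_lad α (hl α hα)).choose_spec.2.1 η' h2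
      exact ⟨_, ⟨n0, rfl⟩, h1.trans_le (h3 n0 le_rfl 0)⟩
    · rw [dif_pos (hl α hα)]
      obtain ⟨n0, h3⟩ :=
        (Pool.Agent.W876.Prox.Omega.exists_lad α (hl α hα)).choose_spec.2.1 η hη
      refine ((Set.finite_Iio n0).image fun n =>
        (Pool.Agent.W876.Prox.Omega.exists_lad α (hl α hα)).choose n 0).subset ?_
      rintro _ ⟨⟨n, rfl⟩, hn⟩
      refine ⟨n, ?_, rfl⟩
      by_contra hcon
      exact absurd hn (not_lt.2 (h3 n (not_lt.1 hcon) 0))
  · obtain ⟨g, hg⟩ := Pool.Agent.W876.Two.Unif.exists_book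
    have hne : Nonempty Pool.Agent.W876.Prox.Book.Len := by
      rw [← mk_ne_zero_iff, Pool.Agent.W876.Prox.Book.mk_Len]
      exact (aleph0_pos.trans_le ((aleph0_le_aleph 1).trans (cantor _).le)).ne'
    have hP : Pool.Agent.W876.Two.Gen.Ccc (Pool.Agent.W876.Two.Poset.Cd C g) :=
      fun {Y} f hY => Pool.Agent.W876.Two.Comb.cond_ccc hC f hY
    have key : ∀ {T : Type} {lt : T → T → Prop} {ht : T → K1},
        Pool.Agent.W876.Two.Tree.GTree lt ht → ∀ p : Pool.Agent.W876.Two.Poset.Cd C g,
          p ∈ UnifTwo C (fun x y => fground (lt x y)) ht ∧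
              p ∈ fnot (Unif C (fun x y => fground (lt x y)) ht) := fun hT p =>
      ⟨Pool.Agent.W876.Two.Unif.unif_two hC Pool.Agent.W876.Prox.Book.len_cof hg hT p,
        Pool.Agent.W876.Two.Main.not_unif hC hne.some hT p⟩
    refine ⟨Pool.Agent.W876.Two.Poset.Cd C g, inferInstance, inferInstance,
      Pool.Agent.W876.Two.Gen.CCC_of hP, Pool.Agent.W876.Two.Gen.cardinalsPreserved hP, ?_, ?_⟩
    · obtain ⟨T, lt, ht, hT, hnb⟩ := Pool.Agent.W876.Two.Tree.exists_aronszajn
      exact ⟨T, lt, ht, fun p => ⟨⟨hT.level, Pool.Agent.W876.Two.Tree.isTree hT p,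
        hnb _ hP p⟩, key hT p⟩⟩
    · intro T lt ht hlev p hp
      exact key (Pool.Agent.W876.Two.Tree.gtree_of hlev hp) p

end Pool.Agent.Results.MP_62a69e_lc.TwoNotOmega
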